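import Mathlib
import Pool.Agent.TH269.TI.Fin

/-!
# Products of three involutions: a recursion for matrices with a large eigenspace

`Prod3 A`: the square matrix `A` over the field `F` is a product of three involutions (the identity
counts as an involution). Let `a ≠ 0`, `a⁴ ≠ 1`, let `q`, `s` be natural numbers and `B` a
`q × q` matrix which does not have the eigenvalue `a`. Put
`A = diag (a I_{2q+3s}, a⁻³ I_s, B)`, a matrix of size `n = 3q + 4s`.

* If `a² B` is a product of three involutions, then so is `A`.
* Conversely, if `A` is a product of three involutions and `B` does not have the eigenvalue `a⁻³`,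
  then `a² B` is a product of three involutions.

So for matrices with an eigenvalue `a`, `a⁴ ≠ 1`, of geometric multiplicity at least `2n/3` (of the
above form) the question is equivalent to the question for the matrix `a² B` of size at most `n/3`.
For `q = 0` one gets that `diag (a I_{3s}, a⁻³ I_s)` is a product of three involutions. For `s = 0`,
`B = b I_q`: `diag (a I_{2q}, b I_q)` is a product of three involutions if and only if the scalar
matrix `a² b I_q` is (`b ≠ a, a⁻³`). The blocks `diag (a, a, a, a⁻³)` may be added or removed.

Idea: let `A = S T U`, `P = S T`. Since `P U = A`, one has `P = a U` on `K = U ker (A - a)`. The space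
`E = K ∩ U K` is invariant under `U` and `P`, and `P = a U` there, `P = a⁻¹ S U S` on `S E`; the
intersection `H` of `K` and `S E` consists of eigenvectors of `A` to `a⁻³`, it has dimension `s`, and
`H + U H + S H + U S H` is invariant. Passing to the quotient one can assume `s = 0`, and then
`V = E + S E + C` with `K = E + C`; `S` and `T` act on `V / (E + S E)`, and a computation with blocks
shows that `- a² B` is the product of these two involutions and a conjugate of `U` restricted to `E`.
Conversely the blocks can be prescribed.
-/

set_option autoImplicit false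

open Pool.Agent.TH269.TI

/-- Let `a ≠ 0`, `a⁴ ≠ 1`, and let `B` be a `q × q` matrix without the eigenvalue `a`. If `a² B` is a
product of three involutions, so is `diag (a I_{2q+3s}, a⁻³ I_s, B)`; and conversely, if `B` does
not have the eigenvalue `a⁻³`. -/
theorem Pool.Agent.Results.MP_530e0f_al.BlockRecursion.result (F : Type) [Field F] (a : F)
    (ha : a ≠ 0) (ha4 : a ^ 4 ≠ 1) (q s : ℕ) (B : Matrix (Fin q) (Fin q) F)
    (h1 : (B - a • (1 : Matrix (Fin q) (Fin q) F)).det ≠ 0) :
    (Prod3 (a ^ 2 • B) →
      Prod3 (Matrix.fromBlocks (a • (1 : Matrix (Fin (2 * q + 3 * s)) (Fin (2 * q + 3 * s)) F)) 0 0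
        (Matrix.fromBlocks ((a⁻¹ ^ 3) • (1 : Matrix (Fin s) (Fin s) F)) 0 0 B))) ∧
    ((B - (a⁻¹ ^ 3) • (1 : Matrix (Fin q) (Fin q) F)).det ≠ 0 →
      Prod3 (Matrix.fromBlocks (a • (1 : Matrix (Fin (2 * q + 3 * s)) (Fin (2 * q + 3 * s)) F)) 0 0
        (Matrix.fromBlocks ((a⁻¹ ^ 3) • (1 : Matrix (Fin s) (Fin s) F)) 0 0 B)) →
      Prod3 (a ^ 2 • B)) :=
  recursion ha ha4 q s B h1
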