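import Mathlib

/-!
# Products of three involutions and a large eigenspace
-/

namespace Pool.Agent.Results.MP_530e0f_al.EigenvalueInverseCube

open Matrix

/-- `A` is a product of three involutions (the identity is allowed as an involution). -/
def IsProdThree {F : Type*} [Field F] {n : ℕ} (A : Matrix (Fin n) (Fin n) F) : Prop :=
  ∃ S T U : Matrix (Fin n) (Fin n) F, S * S = 1 ∧ T * T = 1 ∧ U * U = 1 ∧ A = S * T * U

section

variable {F : Type*} [Field F] {n : ℕ}

lemma rank_add_le (M N : Matrix (Fin n) (Fin n) F) : (M + N).rank ≤ M.rank + N.rank := by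
  have h1 : LinearMap.range (M + N).mulVecLin ≤
      LinearMap.range M.mulVecLin ⊔ LinearMap.range N.mulVecLin := by
    rintro _ ⟨x, rfl⟩
    rw [Matrix.mulVecLin_apply, Matrix.add_mulVec]
    exact Submodule.add_mem _ (Submodule.mem_sup_left ⟨x, rfl⟩) (Submodule.mem_sup_right ⟨x, rfl⟩)
  exact (Submodule.finrank_mono h1).trans (Submodule.finrank_add_le_finrank_add_finrank _ _)

lemma rank_smul_le (c : F) (M : Matrix (Fin n) (Fin n) F) : (c • M).rank ≤ M.rank := by
  have : c • M = (c • (1 : Matrix (Fin n) (Fin n) F)) * M := by rw [smul_mul_assoc, one_mul]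
  rw [this]
  exact Matrix.rank_mul_le_right _ _

/-- the inequality -/
lemma rank_ineq {A : Matrix (Fin n) (Fin n) F} (h : IsProdThree A) {a : F} (ha : a ≠ 0) :
    (A - (a ^ 3)⁻¹ • (1 : Matrix (Fin n) (Fin n) F)).rank ≤
      3 * (A - a • (1 : Matrix (Fin n) (Fin n) F)).rank := by
  obtain ⟨S, T, U, hS, hT, hU, hA⟩ := h
  obtain ⟨K, hK⟩ : ∃ K, K = A - a • (1 : Matrix (Fin n) (Fin n) F) := ⟨_, rfl⟩
  rw [← hK]
  have hAK : A = K + a • (1 : Matrix (Fin n) (Fin n) F) := by rw [hK]; abel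
  obtain ⟨P, hP⟩ : ∃ P, P = S * T := ⟨_, rfl⟩
  have hAP : A = P * U := by rw [hA, hP]
  have hTS : (S * T) * (T * S) = 1 := by
    rw [mul_assoc, ← mul_assoc T T S, hT, one_mul, hS]
  have hTS' : (T * S) * (S * T) = 1 := by
    rw [mul_assoc, ← mul_assoc S S T, hS, one_mul, hT]
  -- P = a U + K U
  have h1 : P = a • U + K * U := by
    have : P = A * U := by rw [hAP, mul_assoc, hU, mul_one]
    rw [this, hAK, add_mul, smul_mul_assoc, one_mul, add_comm]
  -- U = a P⁻¹ + P⁻¹ K
  have h2 : U = a • (T * S) + (T * S) * K := by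
    have : U = (T * S) * A := by rw [hAP, hP, ← mul_assoc, hTS', one_mul]
    rw [this, hAK, mul_add, mul_smul_comm, mul_one, add_comm]
  have h3 : P * P = (a * a) • (1 : Matrix (Fin n) (Fin n) F) + (P * (K * U) + a • K) := by
    have e1 : P * P = P * (a • U + K * U) := by rw [← h1]
    have e2 : P * U = a • (1 : Matrix (Fin n) (Fin n) F) + K := by
      rw [← hAP, hAK, add_comm]
    rw [e1, mul_add, mul_smul_comm, e2, smul_add, smul_smul]
    abel
  obtain ⟨R, hR⟩ : ∃ R, R = P * (K * U) + a • K := ⟨_, rfl⟩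
  rw [← hR] at h3
  have hRr : R.rank ≤ 2 * K.rank := by
    rw [hR]
    have r1 := rank_add_le (P * (K * U)) (a • K)
    have r2 := Matrix.rank_mul_le_right P (K * U)
    have r3 := Matrix.rank_mul_le_left K U
    have r4 := rank_smul_le a K
    omega
  -- conjugate by S
  have h4 : S * (P * P) * S * (P * P) = 1 := by
    have e1 : S * (P * P) * S = (T * S) * (T * S) := by
      rw [hP]
      calc S * (S * T * (S * T)) * S = (S * S) * (T * (S * T) * S) := by simp only [mul_assoc]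
        _ = _ := by rw [hS, one_mul]; simp only [mul_assoc]
    rw [e1, hP]
    calc T * S * (T * S) * (S * T * (S * T)) = T * S * ((T * S) * (S * T)) * (S * T) := by
          simp only [mul_assoc]
      _ = 1 := by rw [hTS', mul_one, hTS']
  have h5 : (a * a) • (P * P) = 1 - S * R * S * (P * P) := by
    have e1 : S * (P * P) * S = (a * a) • (1 : Matrix (Fin n) (Fin n) F) + S * R * S := by
      rw [h3, mul_add, add_mul, mul_smul_comm, mul_one, smul_mul_assoc, hS]
    rw [e1, add_mul, smul_mul_assoc, one_mul] at h4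
    rw [← h4]
    abel
  have h6 : a • A = P * P - P * (K * U) := by
    have e1 : a • U = P - K * U := by rw [h1]; abel
    calc a • A = P * (a • U) := by rw [hAP, mul_smul_comm]
      _ = _ := by rw [e1, mul_sub]
  have h7 : A - (a ^ 3)⁻¹ • (1 : Matrix (Fin n) (Fin n) F) =
      (-(a ^ 3)⁻¹) • (S * R * S * (P * P)) + (-a⁻¹) • (P * (K * U)) := by
    have e1 : P * P = (a * a)⁻¹ • (1 - S * R * S * (P * P)) := by
      rw [← h5, smul_smul, inv_mul_cancel₀ (mul_ne_zero ha ha), one_smul]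
    have e2 : A = a⁻¹ • (P * P - P * (K * U)) := by
      rw [← h6, smul_smul, inv_mul_cancel₀ ha, one_smul]
    have e3 : A = a⁻¹ • ((a * a)⁻¹ • (1 - S * R * S * (P * P)) - P * (K * U)) := by
      rw [← e1]; exact e2
    have e4 : a⁻¹ * (a * a)⁻¹ = (a ^ 3)⁻¹ := by
      field_simp
    rw [e3, smul_sub, smul_smul, e4, smul_sub, neg_smul, neg_smul]
    abel
  rw [h7]
  have q1 := rank_add_le ((-(a ^ 3)⁻¹) • (S * R * S * (P * P))) ((-a⁻¹) • (P * (K * U)))
  have q2 := rank_smul_le (-(a ^ 3)⁻¹) (S * R * S * (P * P))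
  have q3 := rank_smul_le (-a⁻¹) (P * (K * U))
  have q4 := Matrix.rank_mul_le_left (S * R * S) (P * P)
  have q5 := Matrix.rank_mul_le_left (S * R) S
  have q6 := Matrix.rank_mul_le_right S R
  have q7 := Matrix.rank_mul_le_right P (K * U)
  have q8 := Matrix.rank_mul_le_left K U
  omega

/-- kernel of `A - c`, as a submodule -/
def kr (A : Matrix (Fin n) (Fin n) F) (c : F) : Submodule F (Fin n → F) :=
  LinearMap.ker (A - c • (1 : Matrix (Fin n) (Fin n) F)).mulVecLin

lemma mem_kr {A : Matrix (Fin n) (Fin n) F} {c : F} {x : Fin n → F} :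
    x ∈ kr A c ↔ A *ᵥ x = c • x := by
  unfold kr
  rw [LinearMap.mem_ker, Matrix.mulVecLin_apply, Matrix.sub_mulVec, Matrix.smul_mulVec,
    Matrix.one_mulVec, sub_eq_zero]

lemma fin_kr (A : Matrix (Fin n) (Fin n) F) (c : F) :
    (A - c • (1 : Matrix (Fin n) (Fin n) F)).rank + Module.finrank F (kr A c) = n := by
  have h := LinearMap.finrank_range_add_finrank_ker
    (A - c • (1 : Matrix (Fin n) (Fin n) F)).mulVecLin
  rw [Module.finrank_fin_fun] at h
  exact h

lemma kr_disj (A : Matrix (Fin n) (Fin n) F) {a b : F} (hab : a ≠ b) :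
    Disjoint (kr A a) (kr A b) := by
  rw [Submodule.disjoint_def]
  intro x hx hy
  rw [mem_kr] at hx hy
  rw [hx] at hy
  have : (a - b) • x = 0 := by rw [sub_smul, hy, sub_self]
  exact (smul_eq_zero.1 this).resolve_left (sub_ne_zero.2 hab)

lemma kr_sup (A : Matrix (Fin n) (Fin n) F) {a b : F} (hab : a ≠ b)
    (h : n ≤ Module.finrank F (kr A a) + Module.finrank F (kr A b)) :
    kr A a ⊔ kr A b = ⊤ := by
  have h1 := Submodule.finrank_sup_add_finrank_inf_eq (kr A a) (kr A b)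
  rw [(kr_disj A hab).eq_bot, finrank_bot] at h1
  apply Submodule.eq_top_of_finrank_eq
  rw [Module.finrank_fin_fun]
  have h2 := Submodule.finrank_le (kr A a ⊔ kr A b)
  rw [Module.finrank_fin_fun] at h2
  omega

lemma prod_zero_of_sup (A : Matrix (Fin n) (Fin n) F) {a b : F} (h : kr A a ⊔ kr A b = ⊤) :
    (A - a • (1 : Matrix (Fin n) (Fin n) F)) * (A - b • (1 : Matrix (Fin n) (Fin n) F)) = 0 := by
  have key : ∀ x : Fin n → F, ((A - a • (1 : Matrix (Fin n) (Fin n) F)) *
      (A - b • (1 : Matrix (Fin n) (Fin n) F))) *ᵥ x = 0 := by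
    intro x
    have hx : x ∈ kr A a ⊔ kr A b := by rw [h]; trivial
    obtain ⟨y, hy, z, hz, rfl⟩ := Submodule.mem_sup.1 hx
    rw [mem_kr] at hy hz
    have e1 : (A - b • (1 : Matrix (Fin n) (Fin n) F)) *ᵥ (y + z) = (a - b) • y := by
      rw [Matrix.sub_mulVec, Matrix.smul_mulVec, Matrix.one_mulVec, Matrix.mulVec_add, hy, hz]
      module
    rw [← Matrix.mulVec_mulVec, e1, Matrix.sub_mulVec, Matrix.smul_mulVec, Matrix.one_mulVec,
      Matrix.mulVec_smul, hy]
    module
  ext i j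
  have := congrFun (key (Pi.single j 1)) i
  rw [Matrix.mulVec_single_one] at this
  exact this

end

section

variable {F : Type*} [Field F]

/-- the model: three involutions of `E × E × E × E` with product `(a, a, a, a⁻³)` -/
lemma model {E : Type*} [AddCommGroup E] [Module F E] {a : F} (ha : a ≠ 0) :
    ∃ S T U : ((E × E × E) × E) →ₗ[F] ((E × E × E) × E), S ∘ₗ S = LinearMap.id ∧
      T ∘ₗ T = LinearMap.id ∧ U ∘ₗ U = LinearMap.id ∧
      ∀ z : (E × E × E) × E, S (T (U z)) = (a • z.1, (a ^ 3)⁻¹ • z.2) := by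
  let S : ((E × E × E) × E) →ₗ[F] ((E × E × E) × E) :=
    { toFun := fun z => ((z.1.2.2, z.2, z.1.1), z.1.2.1)
      map_add' := by intro x y; rfl
      map_smul' := by intro c x; rfl }
  let T : ((E × E × E) × E) →ₗ[F] ((E × E × E) × E) :=
    { toFun := fun z => ((a⁻¹ • z.2, a⁻¹ • z.1.2.2, a • z.1.2.1), a • z.1.1)
      map_add' := by
        intro x y
        simp [smul_add]
      map_smul' := by
        intro c x
        simp only [Prod.smul_fst, Prod.smul_snd, RingHom.id_apply, Prod.smul_mk, smul_smul,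
          mul_comm c] }
  let U : ((E × E × E) × E) →ₗ[F] ((E × E × E) × E) :=
    { toFun := fun z => ((z.1.2.1, z.1.1, (a ^ 2)⁻¹ • z.2), a ^ 2 • z.1.2.2)
      map_add' := by
        intro x y
        simp [smul_add]
      map_smul' := by
        intro c x
        simp only [Prod.smul_fst, Prod.smul_snd, RingHom.id_apply, Prod.smul_mk, smul_smul,
          mul_comm c] }
  refine ⟨S, T, U, ?_, ?_, ?_, ?_⟩
  · apply LinearMap.ext
    rintro ⟨⟨x1, x2, x3⟩, x4⟩
    rfl
  · apply LinearMap.ext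
    rintro ⟨⟨x1, x2, x3⟩, x4⟩
    show ((a⁻¹ • (a • x1), a⁻¹ • (a • x2), a • (a⁻¹ • x3)), a • (a⁻¹ • x4)) = ((x1, x2, x3), x4)
    simp only [smul_smul, inv_mul_cancel₀ ha, mul_inv_cancel₀ ha, one_smul]
  · apply LinearMap.ext
    rintro ⟨⟨x1, x2, x3⟩, x4⟩
    have h2 : a ^ 2 ≠ 0 := pow_ne_zero 2 ha
    show ((x1, x2, (a ^ 2)⁻¹ • (a ^ 2 • x3)), a ^ 2 • ((a ^ 2)⁻¹ • x4)) = ((x1, x2, x3), x4)
    simp only [smul_smul, inv_mul_cancel₀ h2, mul_inv_cancel₀ h2, one_smul]
  · rintro ⟨⟨x1, x2, x3⟩, x4⟩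
    show ((a • x1, a • x2, a⁻¹ • (a ^ 2 • x3)), a⁻¹ • ((a ^ 2)⁻¹ • x4)) =
      (a • (x1, x2, x3), (a ^ 3)⁻¹ • x4)
    rw [smul_smul, smul_smul]
    have e1 : a⁻¹ * a ^ 2 = a := by field_simp
    have e2 : a⁻¹ * (a ^ 2)⁻¹ = (a ^ 3)⁻¹ := by field_simp
    rw [e1, e2]
    rfl

end

/-- **Products of three involutions, rank inequality and the extremal case.** Let `F` be any field.
(1) If `A ∈ M_n(F)` is a product of three involutions, then for every `a ≠ 0` in `F`,
`rank (A - a⁻³) ≤ 3 rank (A - a)`.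
(2) Let `a ≠ 0`, `a⁴ ≠ 1`, `n = 4r` and let `ker (A - a)` have dimension `3r = 3n/4` (the largest
dimension that (1) allows). Then `A` is a product of three involutions if and only if
`(A - a)(A - a⁻³) = 0`, that is, `A` is similar to the diagonal matrix with `3r` entries `a` and
`r` entries `a⁻³`. -/
theorem result {F : Type*} [Field F] :
    (∀ (n : ℕ) (A : Matrix (Fin n) (Fin n) F), IsProdThree A → ∀ a : F, a ≠ 0 →
      (A - (a ^ 3)⁻¹ • (1 : Matrix (Fin n) (Fin n) F)).rank ≤
        3 * (A - a • (1 : Matrix (Fin n) (Fin n) F)).rank) ∧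
    (∀ (r : ℕ) (A : Matrix (Fin (4 * r)) (Fin (4 * r)) F) (a : F), a ≠ 0 → a ^ 4 ≠ 1 →
      (A - a • (1 : Matrix (Fin (4 * r)) (Fin (4 * r)) F)).rank = r →
      (IsProdThree A ↔ (A - a • (1 : Matrix (Fin (4 * r)) (Fin (4 * r)) F)) *
        (A - (a ^ 3)⁻¹ • (1 : Matrix (Fin (4 * r)) (Fin (4 * r)) F)) = 0)) := by
  refine ⟨fun n A hA a ha => rank_ineq hA ha, ?_⟩
  intro r A a ha ha4 hr
  have hab : a ≠ (a ^ 3)⁻¹ := by
    intro h
    apply ha4
    have h3 : a ^ 3 ≠ 0 := pow_ne_zero 3 ha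
    calc a ^ 4 = a * a ^ 3 := by ring
      _ = (a ^ 3)⁻¹ * a ^ 3 := by rw [← h]
      _ = 1 := inv_mul_cancel₀ h3
  have f1 := fin_kr A a
  have f2 := fin_kr A (a ^ 3)⁻¹
  rw [hr] at f1
  constructor
  · intro h
    have h1 := rank_ineq h ha
    rw [hr] at h1
    apply prod_zero_of_sup
    apply kr_sup A hab
    omega
  · intro h
    -- dimension of the second kernel
    have h1 : (A - (a ^ 3)⁻¹ • (1 : Matrix (Fin (4 * r)) (Fin (4 * r)) F)).rank ≤ 3 * r := by
      have := Matrix.rank_add_rank_le_card_of_mul_eq_zero h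
      rw [hr, Fintype.card_fin] at this
      omega
    have hsup := kr_sup A hab (by omega)
    have hd := kr_disj A hab
    have hc : IsCompl (kr A a) (kr A (a ^ 3)⁻¹) := ⟨hd, codisjoint_iff.2 hsup⟩
    have h2 := Submodule.finrank_sup_add_finrank_inf_eq (kr A a) (kr A (a ^ 3)⁻¹)
    rw [hd.eq_bot, finrank_bot, hsup, finrank_top, Module.finrank_fin_fun] at h2
    have k1 : Module.finrank F (kr A a) = 3 * r := by omega
    have k2 : Module.finrank F (kr A (a ^ 3)⁻¹) = r := by omega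
    let E := Fin r → F
    have e1 : Module.finrank F (kr A a) = Module.finrank F (E × E × E) := by
      rw [k1, Module.finrank_prod, Module.finrank_prod, Module.finrank_fin_fun]; ring
    have e2 : Module.finrank F (kr A (a ^ 3)⁻¹) = Module.finrank F E := by
      rw [k2, Module.finrank_fin_fun]
    let φ1 := LinearEquiv.ofFinrankEq _ _ e1
    let φ2 := LinearEquiv.ofFinrankEq _ _ e2
    let φ : ((E × E × E) × E) ≃ₗ[F] (Fin (4 * r) → F) :=
      (φ1.prodCongr φ2).symm.trans (Submodule.prodEquivOfIsCompl _ _ hc)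
    have hφ : ∀ z, φ z = (φ1.symm z.1 : Fin (4 * r) → F) + (φ2.symm z.2 : Fin (4 * r) → F) := by
      intro z
      rfl
    have hA : ∀ z, A *ᵥ (φ z) = φ (a • z.1, (a ^ 3)⁻¹ • z.2) := by
      intro z
      rw [hφ, hφ, Matrix.mulVec_add, mem_kr.1 (φ1.symm z.1).2, mem_kr.1 (φ2.symm z.2).2]
      simp only [map_smul, Submodule.coe_smul]
    obtain ⟨S, T, U, hS, hT, hU, hSTU⟩ := model (F := F) (E := E) ha
    let M : (((E × E × E) × E) →ₗ[F] ((E × E × E) × E)) → Matrix (Fin (4 * r)) (Fin (4 * r)) F :=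
      fun L => LinearMap.toMatrix' ((φ.toLinearMap ∘ₗ L) ∘ₗ φ.symm.toLinearMap)
    have hM : ∀ L L', M L * M L' = M (L ∘ₗ L') := by
      intro L L'
      show LinearMap.toMatrix' _ * LinearMap.toMatrix' _ = LinearMap.toMatrix' _
      rw [← LinearMap.toMatrix'_comp]
      congr 1
      apply LinearMap.ext
      intro x
      simp
    have hM1 : M LinearMap.id = 1 := by
      show LinearMap.toMatrix' _ = 1
      rw [← LinearMap.toMatrix'_id]
      congr 1
      apply LinearMap.ext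
      intro x
      simp
    refine ⟨M S, M T, M U, ?_, ?_, ?_, ?_⟩
    · rw [hM, hS, hM1]
    · rw [hM, hT, hM1]
    · rw [hM, hU, hM1]
    · rw [hM, hM]
      apply (Matrix.toLin' (R := F)).injective
      show Matrix.toLin' A = Matrix.toLin' (LinearMap.toMatrix' _)
      rw [Matrix.toLin'_toMatrix']
      apply LinearMap.ext
      intro x
      obtain ⟨z, rfl⟩ := φ.surjective x
      rw [Matrix.toLin'_apply, hA, ← hSTU]
      simp

end Pool.Agent.Results.MP_530e0f_al.EigenvalueInverseCube
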